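import Pool.Agent.H97.PR.Targets

set_option autoImplicit false

namespace Pool.Agent.H46.PRY

open Finset Pool.Agent.H97.PR

open Classical in
lemma cnt_eq_sum {n : ℕ} (p : E n → Prop) : cnt p = ∑ x : E n, if p x then 1 else 0 := by
  unfold cnt
  rw [Finset.card_filter]

theorem pf_CST (hRKC : T_RKC) : T_CST := by
  classical
  intro n V R M p hR hM
  have hpc : ∀ a : E n, (cnt (n := n) fun x => x ∈ pc a V) = 2 ^ dm V :=
    (hRKC n 1 (fun _ => 0) V ∅).2.1
  have hsym : ∀ x y : E n, y ∈ pc x V → x ∈ pc y V := by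
    intro x y h
    show x - y ∈ V
    have h' : y - x ∈ V := h
    have := V.neg_mem h'
    rwa [neg_sub] at this
  have hpos : 0 < 2 ^ dm V := by positivity
  have h1 : 2 ^ dm V * cnt (fun x => x ∈ R) ≤
      M * ∑ x : E n, ∑ y : E n, if x ∈ R ∧ y ∈ pc x V ∧ p y then 1 else 0 := by
    rw [cnt_eq_sum, Finset.mul_sum, Finset.mul_sum]
    refine Finset.sum_le_sum fun x _ => ?_
    by_cases hx : x ∈ R
    · have h2 := hM x hx
      rw [cnt_eq_sum] at h2
      rw [if_pos hx, mul_one]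
      refine h2.trans (le_of_eq ?_)
      congr 1
      refine Finset.sum_congr rfl fun y _ => ?_
      by_cases hy : y ∈ pc x V ∧ p y
      · rw [if_pos hy, if_pos ⟨hx, hy⟩]
      · rw [if_neg hy, if_neg (fun h => hy h.2)]
    · simp [hx]
  have h2 : (∑ x : E n, ∑ y : E n, if x ∈ R ∧ y ∈ pc x V ∧ p y then 1 else 0) ≤
      2 ^ dm V * cnt (fun y => y ∈ R ∧ p y) := by
    rw [Finset.sum_comm, cnt_eq_sum, Finset.mul_sum]
    refine Finset.sum_le_sum fun y _ => ?_
    by_cases hy : y ∈ R ∧ p y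
    · rw [if_pos hy, mul_one, ← hpc y, cnt_eq_sum]
      refine Finset.sum_le_sum fun x _ => ?_
      by_cases hxy : x ∈ R ∧ y ∈ pc x V ∧ p y
      · rw [if_pos hxy, if_pos (hsym x y hxy.2.1)]
      · rw [if_neg hxy]; exact Nat.zero_le _
    · rw [if_neg hy, mul_zero]
      refine le_of_eq (Finset.sum_eq_zero fun x _ => ?_)
      rw [if_neg]
      intro hxy
      exact hy ⟨hR x hxy.1 hxy.2.1, hxy.2.2⟩
  refine Nat.le_of_mul_le_mul_left ?_ hpos
  calc 2 ^ dm V * cnt (fun x => x ∈ R) ≤ _ := h1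
    _ ≤ M * (2 ^ dm V * cnt (fun y => y ∈ R ∧ p y)) := Nat.mul_le_mul_left _ h2
    _ = 2 ^ dm V * (M * cnt (fun y => y ∈ R ∧ p y)) := by ring

end Pool.Agent.H46.PRY
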